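import Pool.Agent.N266.TI.Stm

/-!
# TI/CV: mollification identities (helper487)
-/

set_option autoImplicit false

namespace Pool.Agent.N487.TI.Cv

open MeasureTheory Metric Set Pool.Agent.N266.TI
open scoped ENNReal Pointwise ContDiff Convolution

noncomputable section

variable {n : ℕ}

/-- the convolution -/
def cv (f g : E n → ℝ) (x : E n) : ℝ := ∫ y, f y * g (x - y)

lemma cv_conv (f g : E n → ℝ) : cv f g = f ⋆[ContinuousLinearMap.mul ℝ ℝ, volume] g := rfl

lemma cv_comm (f g : E n → ℝ) : cv f g = cv g f := by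
  funext x
  unfold cv
  rw [← integral_sub_left_eq_self (fun y => f y * g (x - y)) volume x]
  congr 1
  funext y
  rw [sub_sub_cancel, mul_comm]

lemma fd_right {f g : E n → ℝ} (hf : Continuous f) (hcg : HasCompactSupport g) (hg : ContDiff ℝ 1 g) (x v : E n) :
    fderiv ℝ (cv f g) x v = cv f (fun a => fderiv ℝ g a v) x := by
  rw [cv_conv, (hcg.hasFDerivAt_convolution_right (ContinuousLinearMap.mul ℝ ℝ) (μ := volume)
    hf.locallyIntegrable hg x).fderiv, convolution_precompR_apply (ContinuousLinearMap.mul ℝ ℝ)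
    hf.locallyIntegrable (hcg.fderiv ℝ) (hg.continuous_fderiv one_ne_zero)]
  rfl

lemma fd_left {f g : E n → ℝ} (hcf : HasCompactSupport f) (hf : ContDiff ℝ 1 f) (hg : Continuous g) (x v : E n) :
    fderiv ℝ (cv f g) x v = cv (fun a => fderiv ℝ f a v) g x := by
  rw [cv_comm, fd_right hg hcf hf, cv_comm]

lemma cd {f g : E n → ℝ} (hf : Continuous f) (hcg : HasCompactSupport g) {m : ℕ∞} (hg : ContDiff ℝ m g) :
    ContDiff ℝ m (cv f g) :=
  hcg.contDiff_convolution_right (ContinuousLinearMap.mul ℝ ℝ) (μ := volume) hf.locallyIntegrable hg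

lemma cs {f g : E n → ℝ} (hcf : HasCompactSupport f) (hcg : HasCompactSupport g) : HasCompactSupport (cv f g) :=
  hcf.convolution (ContinuousLinearMap.mul ℝ ℝ) (μ := volume) hcg

lemma fd_sub {g : E n → ℝ} (hg : Differentiable ℝ g) (x y w : E n) :
    fderiv ℝ (fun y => g (x - y)) y w = - fderiv ℝ g (x - y) w := by
  have h1 : HasFDerivAt (fun y : E n => x - y) (-(ContinuousLinearMap.id ℝ (E n))) y := by
    simpa using (hasFDerivAt_id (𝕜 := ℝ) y).const_sub x
  have h2 := ((hg (x - y)).hasFDerivAt.comp y h1).fderiv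
  have h3 : (g ∘ fun y : E n => x - y) = fun y => g (x - y) := rfl
  rw [h3] at h2
  rw [h2]
  simp

lemma int_mul {f g : E n → ℝ} (hf : Continuous f) (hcf : HasCompactSupport f) (hg : Continuous g) :
    Integrable (fun x => f x * g x) :=
  (hf.mul hg).integrable_of_hasCompactSupport hcf.mul_right

/-- the partial derivative -/
def pd (f : E n → ℝ) (i : Fin n) (a : E n) : ℝ := fderiv ℝ f a (e i)

lemma pd_cd {f : E n → ℝ} {m k : ℕ∞} (hf : ContDiff ℝ k f) (hk : m + 1 ≤ k) (i : Fin n) : ContDiff ℝ m (pd f i) := by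
  unfold pd
  exact (hf.fderiv_right (m := m) (by exact_mod_cast hk)).clm_apply contDiff_const

lemma pd_cont {f : E n → ℝ} (hf : ContDiff ℝ 1 f) (i : Fin n) : Continuous (pd f i) :=
  (hf.continuous_fderiv one_ne_zero).clm_apply continuous_const

lemma pd_cs {f : E n → ℝ} (hf : HasCompactSupport f) (i : Fin n) : HasCompactSupport (pd f i) :=
  hf.fderiv_apply ℝ (e i)

lemma bil_eq {ψ g : E n → ℝ} (hψ : ContDiff ℝ 1 ψ) (hcψ : HasCompactSupport ψ) (hg : ContDiff ℝ 1 g) (x : E n) :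
    bil ψ (fun y => g (x - y)) = - ∑ i, cv (pd ψ i) (pd g i) x := by
  unfold bil
  have h1 : (fun y => ∑ i, fderiv ℝ ψ y (e i) * fderiv ℝ (fun y => g (x - y)) y (e i)) =
      fun y => ∑ i, -(pd ψ i y * pd g i (x - y)) := by
    funext y
    refine Finset.sum_congr rfl fun i _ => ?_
    rw [fd_sub (hg.differentiable one_ne_zero)]
    unfold pd
    ring
  rw [h1, integral_finsetSum]
  · rw [← Finset.sum_neg_distrib]
    refine Finset.sum_congr rfl fun i _ => ?_
    rw [integral_neg]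
    rfl
  · intro i _
    exact (int_mul (pd_cont hψ i) (pd_cs hcψ i) ((pd_cont hg i).comp (continuous_const.sub continuous_id))).neg

lemma lap_eq {ψ ρ : E n → ℝ} (hψ : ContDiff ℝ 1 ψ) (hcψ : HasCompactSupport ψ) (hρ : ContDiff ℝ ∞ ρ)
    (hcρ : HasCompactSupport ρ) : lap (cv ψ ρ) = fun x => ∑ i, cv (pd ψ i) (pd ρ i) x := by
  funext x
  unfold lap
  refine Finset.sum_congr rfl fun i _ => ?_
  have h1 : (fun z => fderiv ℝ (cv ψ ρ) z (e i)) = cv ψ (pd ρ i) := by
    funext z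
    exact fd_right hψ.continuous hcρ (hρ.of_le (by exact_mod_cast le_top)) z (e i)
  rw [h1]
  exact fd_left hcψ hψ (pd_cont (hρ.of_le (by exact_mod_cast le_top)) i) x (e i)

lemma pd_symm {ρ : E n → ℝ} (hρ : ContDiff ℝ ∞ ρ) (i j : Fin n) : pd (pd ρ i) j = pd (pd ρ j) i := by
  have hle : (2 : WithTop ℕ∞) ≤ ((⊤ : ℕ∞) : WithTop ℕ∞) :=
    show ((2 : ℕ∞) : WithTop ℕ∞) ≤ ((⊤ : ℕ∞) : WithTop ℕ∞) from WithTop.coe_le_coe.2 le_top
  have hd : Differentiable ℝ (fderiv ℝ ρ) :=
    ((hρ.of_le hle : ContDiff ℝ 2 ρ).fderiv_right (m := 1) (by norm_num)).differentiable one_ne_zero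
  have key : ∀ (i j : Fin n) (a : E n), pd (pd ρ i) j a = fderiv ℝ (fderiv ℝ ρ) a (e j) (e i) := by
    intro i j a
    unfold pd
    have := (hd a).hasFDerivAt.clm_apply (hasFDerivAt_const (e i : E n) a)
    rw [this.fderiv]
    simp
  funext a
  rw [key, key]
  exact (hρ.contDiffAt.isSymmSndFDerivAt (by
    rw [minSmoothness_of_isRCLikeNormedField]
    exact hle)) _ _

lemma main1 {ψ ρ : E n → ℝ} (hψ : ContDiff ℝ 1 ψ) (hcψ : HasCompactSupport ψ) (hρ : ContDiff ℝ ∞ ρ)
    (hcρ : HasCompactSupport ρ) (x : E n) : - lap (cv ψ ρ) x = bil ψ (fun y => ρ (x - y)) := by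
  rw [bil_eq hψ hcψ (hρ.of_le (by exact_mod_cast le_top)), lap_eq hψ hcψ hρ hcρ]

lemma main2 {ψ ρ : E n → ℝ} (hψ : ContDiff ℝ 1 ψ) (hcψ : HasCompactSupport ψ) (hρ : ContDiff ℝ ∞ ρ)
    (hcρ : HasCompactSupport ρ) (x : E n) (i : Fin n) :
    - fderiv ℝ (lap (cv ψ ρ)) x (e i) = bil ψ (fun y => fderiv ℝ ρ (x - y) (e i)) := by
  have hρi : ∀ i : Fin n, ContDiff ℝ 1 (pd ρ i) := fun i => by
    exact_mod_cast pd_cd (m := 1) (k := ⊤) (by exact_mod_cast hρ) le_top i
  have h1 : bil ψ (fun y => fderiv ℝ ρ (x - y) (e i)) = - ∑ j, cv (pd ψ j) (pd (pd ρ i) j) x :=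
    bil_eq hψ hcψ (hρi i) x
  rw [h1, lap_eq hψ hcψ hρ hcρ]
  congr 1
  have h2 : ∀ j ∈ (Finset.univ : Finset (Fin n)), DifferentiableAt ℝ (cv (pd ψ j) (pd ρ j)) x := by
    intro j _
    have := cd (m := 1) (pd_cont hψ j) (pd_cs hcρ j) (by exact_mod_cast hρi j)
    exact (ContDiff.differentiable (by exact_mod_cast this) one_ne_zero) x
  rw [fderiv_fun_sum h2]
  simp only [FunLike.coe_sum, Finset.sum_apply]
  refine Finset.sum_congr rfl fun j _ => ?_
  rw [fd_right (pd_cont hψ j) (pd_cs hcρ j) (hρi j)]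
  have : (fun a => fderiv ℝ (pd ρ j) a (e i)) = pd (pd ρ i) j := pd_symm hρ j i
  rw [this]

lemma main3 {ψ ρ χ : E n → ℝ} (hψ : ContDiff ℝ 1 ψ) (hcψ : HasCompactSupport ψ) (hρ : ContDiff ℝ ∞ ρ)
    (hcρ : HasCompactSupport ρ) (hχ : ContDiff ℝ 1 χ) (hcχ : HasCompactSupport χ) :
    ∫ x, - lap (cv ψ ρ) x * χ x = bil ψ (fun y => ∫ x, χ x * ρ (x - y)) := by
  have hρ1 : ContDiff ℝ 1 ρ := hρ.of_le (by exact_mod_cast le_top)
  obtain ⟨r, hr⟩ : ∃ r : E n → ℝ, r = fun z => ρ (0 - z) := ⟨_, rfl⟩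
  have hr1 : ContDiff ℝ 1 r := by
    rw [hr]
    exact hρ1.comp (contDiff_const.sub contDiff_id)
  have hcr : HasCompactSupport r := by
    rw [hr]
    have := hcρ.comp_homeomorph (Homeomorph.neg (E n))
    convert this using 1
    funext z
    simp
  have hpr : ∀ (i : Fin n) (x y : E n), pd r i (y - x) = - pd ρ i (x - y) := by
    intro i x y
    unfold pd
    rw [hr, fd_sub (hρ1.differentiable one_ne_zero)]
    simp
  have hw : (fun y => ∫ x, χ x * ρ (x - y)) = cv χ r := by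
    funext y
    unfold cv
    congr 1
    funext x
    rw [hr]
    simp
  rw [hw]
  unfold bil
  have h1 : (fun y => ∑ i, fderiv ℝ ψ y (e i) * fderiv ℝ (cv χ r) y (e i)) =
      fun y => ∑ i, pd ψ i y * cv χ (pd r i) y := by
    funext y
    refine Finset.sum_congr rfl fun i _ => ?_
    rw [fd_right hχ.continuous hcr hr1]
    rfl
  have hcont : ∀ i, Continuous (cv χ (pd r i)) := by
    intro i
    have := cd (m := 0) hχ.continuous (pd_cs hcr i) (contDiff_zero.2 (pd_cont hr1 i))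
    exact this.continuous
  have hcont2 : ∀ i, Continuous (cv (pd ψ i) (pd ρ i)) := by
    intro i
    have := cd (m := 0) (pd_cont hψ i) (pd_cs hcρ i) (contDiff_zero.2 (pd_cont hρ1 i))
    exact this.continuous
  rw [h1, integral_finsetSum _ fun i _ => int_mul (pd_cont hψ i) (pd_cs hcψ i) (hcont i), lap_eq hψ hcψ hρ hcρ]
  have h2 : (fun x => -(∑ i, cv (pd ψ i) (pd ρ i) x) * χ x) =
      fun x => ∑ i, χ x * -(cv (pd ψ i) (pd ρ i) x) := by
    funext x
    rw [← Finset.mul_sum, Finset.sum_neg_distrib]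
    ring
  have h2' := integral_finsetSum (μ := volume) Finset.univ
    (f := fun (i : Fin n) (x : E n) => χ x * -(cv (pd ψ i) (pd ρ i) x))
    (fun i _ => int_mul hχ.continuous hcχ (hcont2 i).neg)
  rw [h2, h2']
  refine Finset.sum_congr rfl fun i _ => ?_
  have h3 : (fun x => χ x * -(cv (pd ψ i) (pd ρ i) x)) =
      fun x => ∫ y, χ x * (-(pd ψ i y * pd ρ i (x - y))) := by
    funext x
    rw [integral_const_mul, integral_neg]
    rfl
  have h4 : (fun y => pd ψ i y * cv χ (pd r i) y) =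
      fun y => ∫ x, χ x * (-(pd ψ i y * pd ρ i (x - y))) := by
    funext y
    unfold cv
    rw [← integral_const_mul]
    congr 1
    funext x
    rw [hpr]
    ring
  rw [h3, h4]
  apply integral_integral_swap_of_hasCompactSupport
  · have c1 : Continuous fun p : E n × E n => χ p.1 := hχ.continuous.comp continuous_fst
    have c2 : Continuous fun p : E n × E n => pd ψ i p.2 := (pd_cont hψ i).comp continuous_snd
    have c3 : Continuous fun p : E n × E n => pd ρ i (p.1 - p.2) :=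
      (pd_cont hρ1 i).comp (continuous_fst.sub continuous_snd)
    exact c1.mul (c2.mul c3).neg
  · refine HasCompactSupport.intro (hcχ.isCompact.prod (pd_cs hcψ i).isCompact) ?_
    rintro ⟨x, y⟩ hxy
    simp only [Function.uncurry_apply_pair]
    by_cases hx : x ∈ tsupport χ
    · have hy : y ∉ tsupport (pd ψ i) := fun h => hxy ⟨hx, h⟩
      rw [image_eq_zero_of_notMem_tsupport hy]
      simp
    · rw [image_eq_zero_of_notMem_tsupport hx]
      simp

/-- **TI/CV.** -/
theorem cv_ : CV := by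
  intro n ε hε
  obtain ⟨φ, hφ⟩ : ∃ φ : ContDiffBump (0 : E n), φ.rOut = ε / 2 :=
    ⟨⟨ε / 3, ε / 2, by positivity, by linarith⟩, rfl⟩
  have hρ : ContDiff ℝ ∞ (φ.normed (volume : Measure (E n))) := φ.contDiff_normed
  have hcρ : HasCompactSupport (φ.normed (volume : Measure (E n))) := φ.hasCompactSupport_normed
  refine ⟨φ.normed volume, hρ, hcρ, φ.nonneg_normed, ?_, φ.integral_normed, ?_⟩
  · intro x hx
    by_contra hcon
    have h1 : x ∈ Function.support (φ.normed (volume : Measure (E n))) := hcon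
    rw [φ.support_normed_eq, mem_ball_zero_iff, hφ] at h1
    linarith
  · intro ψ hψ hcψ
    refine ⟨cv ψ (φ.normed volume), fun x => rfl, ?_, cs hcψ hcρ, main1 hψ hcψ hρ hcρ, main2 hψ hcψ hρ hcρ,
      fun χ hχ hcχ => main3 hψ hcψ hρ hcρ hχ hcχ⟩
    have := cd (m := 3) hψ.continuous hcρ (hρ.of_le (by exact_mod_cast le_top))
    exact_mod_cast this

end

end Pool.Agent.N487.TI.Cv
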